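import Pool.Agent.H39Z.SSS.Spec

/-! The two algebraic pieces: certificates bound the constant from below, good polynomials
bound it from above. -/

set_option autoImplicit false

namespace Pool.Agent.H404Z.SSS

open Polynomial Set Pool.Agent.H39Z.SSS

lemma aeval_conj {α z : ℂ} (hα : IsIntegral ℚ α) (hz : z ∈ (minpoly ℚ α).aroots ℂ) (P : ℤ[X]) :
    aeval z P = 0 ↔ aeval α P = 0 := by
  have h1 : minpoly ℚ α = minpoly ℚ z :=
    (minpoly.eq_iff_aeval_minpoly_eq_zero hα).2 (mem_aroots.1 hz).2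
  have h2 : ∀ w : ℂ, aeval w P = 0 ↔ minpoly ℚ w ∣ P.map (algebraMap ℤ ℚ) := fun w => by
    rw [minpoly.dvd_iff, aeval_map_algebraMap]
  rw [h2, h2, h1]

lemma aeval_ofReal (x : ℝ) (P : ℤ[X]) : aeval (x : ℂ) P = ((aeval x P : ℝ) : ℂ) :=
  aeval_algebraMap_apply ℂ x P

lemma mean_ge {α : ℂ} (hα : TotPos α) (lam : ℝ) (M : ℕ) (P : ℤ[X]) (hM : 0 < M)
    (hP : ∀ x ∈ Ici (0 : ℝ), |aeval x P| ≤ Real.exp (M * (x - lam))) (h0 : aeval α P ≠ 0) :
    lam ≤ meanTr α := by
  have hQ : IsIntegral ℚ α := hα.1.tower_top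
  set p := minpoly ℤ α with hp
  have hpm : p.Monic := minpoly.monic hα.1
  have e1 : (minpoly ℚ α).aroots ℂ = (p.map (algebraMap ℤ ℂ)).roots := by
    rw [minpoly.isIntegrallyClosed_eq_field_fractions' ℚ hα.1, aroots_def, Polynomial.map_map]
    congr 2
  have e2 := resultant_eq_prod_eval (p.map (algebraMap ℤ ℂ)) (P.map (algebraMap ℤ ℂ)) P.natDegree
    natDegree_map_le (IsAlgClosed.splits _)
  rw [resultant_map_map, (hpm.map _).leadingCoeff, one_pow, one_mul, ← e1] at e2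
  set s := (minpoly ℚ α).aroots ℂ with hs
  set r := resultant p P (p.map (algebraMap ℤ ℂ)).natDegree P.natDegree with hr
  have hr0 : r ≠ 0 := by
    intro h
    rw [h, map_zero, eq_comm, Multiset.prod_eq_zero_iff, Multiset.mem_map] at e2
    obtain ⟨z, hz, hz0⟩ := e2
    rw [eval_map_algebraMap] at hz0
    exact h0 ((aeval_conj hQ hz P).1 hz0)
  have h1 : (1 : ℝ) ≤ ‖(algebraMap ℤ ℂ) r‖ := by
    rw [eq_intCast, Complex.norm_intCast]
    exact_mod_cast Int.one_le_abs hr0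
  have key : ∀ t : Multiset ℂ, (∀ z ∈ t, z.im = 0 ∧ 0 ≤ z.re) →
      ‖(t.map (P.map (algebraMap ℤ ℂ)).eval).prod‖ ≤
        Real.exp (M * ((t.map Complex.re).sum - t.card * lam)) := by
    intro t
    induction t using Multiset.induction_on with
    | empty => simp
    | cons z t ih =>
      intro ht
      have hz := ht z (Multiset.mem_cons_self _ _)
      have ih' := ih fun w hw => ht w (Multiset.mem_cons_of_mem hw)
      have hz1 : z = (z.re : ℂ) := Complex.ext (by simp) (by simp [hz.1])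
      have hz2 : ‖(P.map (algebraMap ℤ ℂ)).eval z‖ ≤ Real.exp (M * (z.re - lam)) := by
        rw [eval_map_algebraMap, hz1, aeval_ofReal, Complex.norm_real, Complex.ofReal_re]
        exact hP _ hz.2
      rw [Multiset.map_cons, Multiset.prod_cons, norm_mul, Multiset.map_cons, Multiset.sum_cons,
        Multiset.card_cons]
      refine (mul_le_mul hz2 ih' (norm_nonneg _) (Real.exp_pos _).le).trans (le_of_eq ?_)
      rw [← Real.exp_add]
      congr 1
      push_cast
      ring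
  have h2 := key s hα.2
  rw [← e2] at h2
  have h3 := Real.one_le_exp_iff.1 (h1.trans h2)
  have hc : s.card = (minpoly ℚ α).natDegree := IsAlgClosed.card_aroots_eq_natDegree
  have hd : (0 : ℝ) < (minpoly ℚ α).natDegree := by exact_mod_cast minpoly.natDegree_pos hQ
  have hM' : (0 : ℝ) < M := by exact_mod_cast hM
  rw [meanTr, le_div_iff₀ hd, ← hs, ← hc]
  have := (mul_nonneg_iff_of_pos_left hM').1 h3
  linarith

theorem low : S_LOW := by
  rintro lam ⟨M, P, hM, hP0, hP⟩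
  refine Filter.le_liminf_of_le (by isBoundedDefault) ?_
  have hfin : {α : {α : ℂ // TotPos α} | aeval α.1 P = 0}.Finite := by
    have h1 : (P.rootSet ℂ).Finite := rootSet_finite P ℂ
    refine (h1.preimage Subtype.val_injective.injOn).subset fun α hα => ?_
    simp only [mem_preimage, mem_rootSet']
    refine ⟨?_, hα⟩
    exact (Polynomial.map_ne_zero_iff (FaithfulSMul.algebraMap_injective ℤ ℂ)).2 hP0
  filter_upwards [hfin.compl_mem_cofinite] with α hα
  exact_mod_cast mean_ge α.2 lam M P hM hP hα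

lemma meanTr_nonneg {α : ℂ} (hα : TotPos α) : 0 ≤ meanTr α := by
  refine div_nonneg (Multiset.sum_nonneg fun x hx => ?_) (Nat.cast_nonneg _)
  obtain ⟨z, hz, rfl⟩ := Multiset.mem_map.1 hx
  exact (hα.2 z hz).2

lemma good_roots {P : ℤ[X]} {N : ℕ} {ρ : Fin N → ℝ}
    (hP : P.map (Int.castRingHom ℝ) = ∏ i, (X - C (ρ i))) (z : ℂ) :
    aeval z P = 0 ↔ ∃ j, z = ρ j := by
  have h1 : aeval z P = aeval z (P.map (algebraMap ℤ ℝ)) := (aeval_map_algebraMap ℝ z P).symm
  rw [h1, show algebraMap ℤ ℝ = Int.castRingHom ℝ from rfl, hP, map_prod,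
    Finset.prod_eq_zero_iff]
  simp [sub_eq_zero]

lemma good_sum {P : ℤ[X]} (hm : P.Monic) {N : ℕ} {ρ : Fin N → ℝ} (hρ : Function.Injective ρ)
    (h0 : ∀ i, 0 ≤ ρ i) (hP : P.map (Int.castRingHom ℝ) = ∏ i, (X - C (ρ i))) :
    (∀ i, TotPos (ρ i)) ∧ ∑ i, meanTr (ρ i) = ∑ i, ρ i := by
  classical
  have hZ : ∀ i, IsIntegral ℤ (ρ i : ℂ) := fun i => ⟨P, hm, (good_roots hP _).2 ⟨i, rfl⟩⟩
  have hQ : ∀ i, IsIntegral ℚ (ρ i : ℂ) := fun i => (hZ i).tower_top
  have hr : ∀ i, ∀ z ∈ (minpoly ℚ (ρ i : ℂ)).aroots ℂ, ∃ j, z = ρ j := fun i z hz =>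
    (good_roots hP z).1 ((aeval_conj (hQ i) hz P).2 ((good_roots hP _).2 ⟨i, rfl⟩))
  refine ⟨fun i => ⟨hZ i, fun z hz => ?_⟩, ?_⟩
  · obtain ⟨j, rfl⟩ := hr i z hz
    simpa using h0 j
  have hinj : Function.Injective fun j => (ρ j : ℂ) := Complex.ofReal_injective.comp hρ
  have e1 : ∀ i, (minpoly ℚ (ρ i : ℂ)).aroots ℂ =
      (Finset.univ.filter fun j => minpoly ℚ (ρ i : ℂ) = minpoly ℚ (ρ j : ℂ)).val.map
        fun j => (ρ j : ℂ) := by
    intro i
    refine (Multiset.Nodup.ext ?_ ?_).2 fun z => ?_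
    · exact nodup_roots ((minpoly.irreducible (hQ i)).separable.map)
    · exact Multiset.Nodup.map hinj (Finset.nodup _)
    · simp only [Multiset.mem_map, Finset.mem_val, Finset.mem_filter, Finset.mem_univ, true_and]
      constructor
      · intro hz
        obtain ⟨j, rfl⟩ := hr i z hz
        exact ⟨j, (minpoly.eq_iff_aeval_minpoly_eq_zero (hQ i)).2 (mem_aroots.1 hz).2, rfl⟩
      · rintro ⟨j, hj, rfl⟩
        exact mem_aroots.2 ⟨minpoly.ne_zero (hQ i), by rw [hj]; exact minpoly.aeval _ _⟩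
  have e2 : ∀ i, (Finset.univ.filter fun j => minpoly ℚ (ρ i : ℂ) = minpoly ℚ (ρ j : ℂ)).card =
      (minpoly ℚ (ρ i : ℂ)).natDegree := by
    intro i
    rw [← IsAlgClosed.card_aroots_eq_natDegree (B := ℂ), e1, Multiset.card_map]
    rfl
  have e3 : ∀ i, meanTr (ρ i) = ∑ j, if minpoly ℚ (ρ j : ℂ) = minpoly ℚ (ρ i : ℂ) then
      ρ j / (minpoly ℚ (ρ j : ℂ)).natDegree else 0 := by
    intro i
    rw [meanTr, e1, Multiset.map_map, ← Finset.sum_filter]
    change (∑ j ∈ _, _) / _ = _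
    rw [Finset.sum_div]
    refine Finset.sum_congr (by ext j; simp [eq_comm]) fun j hj => ?_
    rw [(Finset.mem_filter.1 hj).2]
    simp
  simp only [e3]
  rw [Finset.sum_comm]
  refine Finset.sum_congr rfl fun j _ => ?_
  rw [← Finset.sum_filter, Finset.sum_const, e2, nsmul_eq_mul]
  have hd : ((minpoly ℚ (ρ j : ℂ)).natDegree : ℝ) ≠ 0 := by
    exact_mod_cast (minpoly.natDegree_pos (hQ j)).ne'
  field_simp

theorem alg : S_ALG := by
  classical
  intro lam h
  by_contra hc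
  obtain ⟨l, hl1, hl2⟩ := EReal.lt_iff_exists_real_btwn.1 (not_le.1 hc)
  have hl1' : lam < l := by exact_mod_cast hl1
  have hev := Filter.eventually_lt_of_lt_liminf hl2
  rw [Filter.eventually_cofinite] at hev
  set F := hev.toFinset with hF
  obtain ⟨N₀, hN₀⟩ := exists_nat_gt (|l| * F.card / (l - lam))
  obtain ⟨N, P, hN, hm, -, ρ, hρ, h0, hP, hT⟩ := h N₀
  obtain ⟨htp, hsum⟩ := good_sum hm hρ h0 hP
  have h1 : ∀ i, l ≤ meanTr (ρ i) + |l| * if (⟨ρ i, htp i⟩ : {α : ℂ // TotPos α}) ∈ F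
      then 1 else 0 := by
    intro i
    split_ifs with hi
    · have := meanTr_nonneg (htp i)
      have := le_abs_self l
      linarith
    · simp only [hF, Finite.mem_toFinset, mem_setOf_eq, not_not] at hi
      have : l < meanTr (ρ i) := by exact_mod_cast hi
      linarith
  have h2 := Finset.sum_le_sum fun i (_ : i ∈ Finset.univ) => h1 i
  rw [Finset.sum_add_distrib, hsum, ← Finset.mul_sum, Finset.sum_boole, Finset.sum_const,
    Finset.card_univ, Fintype.card_fin, nsmul_eq_mul] at h2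
  have h3 : (Finset.univ.filter fun i => (⟨ρ i, htp i⟩ : {α : ℂ // TotPos α}) ∈ F).card ≤
      F.card := by
    refine Finset.card_le_card_of_injOn (fun i => ⟨ρ i, htp i⟩) (fun i hi => by simpa using hi)
      fun i _ j _ hij => hρ (Complex.ofReal_injective (congrArg Subtype.val hij))
  have h4 : |l| * ((Finset.univ.filter fun i =>
      (⟨ρ i, htp i⟩ : {α : ℂ // TotPos α}) ∈ F).card : ℝ) ≤ |l| * F.card := by
    gcongr
  rw [div_lt_iff₀ (by linarith)] at hN₀
  have h5 : (N₀ : ℝ) ≤ N := by exact_mod_cast hN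
  nlinarith

end Pool.Agent.H404Z.SSS
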